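import Pool.Agent.Helper59K9.St.Cnt7

/-!
# How many parameters `(n, q, r)` satisfy the divisibility condition

We count the triples `1 ≤ r < q < n` with (D), and so bound the number of triples for which a
nontrivial Steiner system `S(n, q, r)` exists.

* For every `n` the number of pairs `(q, r)` with (D) is `(1/2 + o(1)) n / log n`; all but
  `O(n / (log n)^2)` of them have `q = r + 1` and `n - r` prime, and `O_b(n / (log n)^b)` of them
  have `q - r ≥ b`, for every `b ≥ 1`.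
* For every single strength `r ≥ X^ε` there are only `O(X / (log X)^b)` pairs `(n, q)`, `n ≤ X`,
  `q ≥ r + b`, with (D), and the same holds for the pairs `(n, r)` for every single block size
  `q ≥ X^ε`.
* The number of triples with `n ≤ X` is `(1/4 + o(1)) X^2 / log X`.

So on `n` points there are Steiner systems for at most `(1/2 + o(1)) n / log n` pairs `(q, r)`, and
apart from `O(n / (log n)^2)` pairs they are systems `S(p + r, r + 1, r)`, `p` prime.

Proof. Let `a = q - r`, `c = n - q`. By the criterion of the starting files (D) implies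
`(a + 1) ∣ c`, `(a + 2) ∣ s (s + 1)` for `c = (a + 1) s`, and `c + j ≢ 0` modulo `p` for
`1 ≤ j ≤ a` and all primes `a < p ≤ q`. For `a ≤ (log X)^B` the fundamental lemma of the sieve
(starting files) is used with `b` or `b + 1` residue classes modulo each prime `p ≤ X^δ`, uniformly
in the modulus `a + 1`; for `a ≤ X^(1/4)` the two divisibilities suffice; and for larger `a` there
are no solutions by the equidistribution of the points `(a / p, c / p)` (hand-in
`SuperpolynomialOrder`, here without the inequality of Tits).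
-/

set_option autoImplicit false
open Finset Filter Topology

namespace Pool.Agent.Results.MP_409a13_co.AdmissibleParameters

/-- `B` is a Steiner system `S(n, q, r)` on the points `Fin n`: its members (blocks) have `q`
elements, and each set of `r` points lies in exactly one block. -/
def IsSteiner (n q r : ℕ) (B : Finset (Finset (Fin n))) : Prop :=
  (∀ b ∈ B, b.card = q) ∧ ∀ s : Finset (Fin n), s.card = r → ∃! b, b ∈ B ∧ s ⊆ b

/-- There is a Steiner system `S(n, q, r)`. -/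
def Steiner (n q r : ℕ) : Prop := ∃ B, IsSteiner n q r B

/-- The divisibility condition (D): for each `i < r` the number `C(n-i, r-i)` is a multiple of
`C(q-i, r-i)`. -/
def DivCond (n q r : ℕ) : Prop := ∀ i < r, (q - i).choose (r - i) ∣ (n - i).choose (r - i)

open Classical in
/-- The pairs `(q, r)` with `1 ≤ r`, `r + b ≤ q < n` and `P n q r`, for given `n`. -/
noncomputable def onPoints (P : ℕ → ℕ → ℕ → Prop) (n b : ℕ) : Finset (ℕ × ℕ) :=
  (Icc 1 n ×ˢ Icc 1 n).filter (fun z => z.2 + b ≤ z.1 ∧ z.1 < n ∧ P n z.1 z.2)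

open Classical in
/-- The pairs `(n, q)` with `r + b ≤ q < n ≤ X` and `P n q r`, for given `r`. -/
noncomputable def ofStrength (P : ℕ → ℕ → ℕ → Prop) (r X b : ℕ) : Finset (ℕ × ℕ) :=
  (Icc 1 X ×ˢ Icc 1 X).filter (fun z => r + b ≤ z.2 ∧ z.2 < z.1 ∧ P z.1 z.2 r)

open Classical in
/-- The pairs `(n, r)` with `1 ≤ r`, `r + b ≤ q < n ≤ X` and `P n q r`, for given `q`. -/
noncomputable def ofBlockSize (P : ℕ → ℕ → ℕ → Prop) (q X b : ℕ) : Finset (ℕ × ℕ) :=
  (Icc 1 X ×ˢ Icc 1 X).filter (fun z => z.2 + b ≤ q ∧ q < z.1 ∧ P z.1 q z.2)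

open Classical in
/-- The triples `(n, q, r)` with `1 ≤ r`, `r + b ≤ q < n ≤ X` and `P n q r`. -/
noncomputable def triples (P : ℕ → ℕ → ℕ → Prop) (X b : ℕ) : Finset (ℕ × ℕ × ℕ) :=
  (Icc 1 X ×ˢ Icc 1 X ×ˢ Icc 1 X).filter
    (fun z => z.2.2 + b ≤ z.2.1 ∧ z.2.1 < z.1 ∧ P z.1 z.2.1 z.2.2)

open Pool.Agent.Helper59K9.St in
open Classical in
theorem result :
    -- the number of solutions of (D)
    Tendsto (fun n : ℕ => ((onPoints DivCond n 1).card : ℝ) * Real.log n / n) atTop (𝓝 (1 / 2)) ∧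
    Tendsto (fun X : ℕ => ((triples DivCond X 1).card : ℝ) * Real.log X / (X : ℝ) ^ 2) atTop
      (𝓝 (1 / 4)) ∧
    ∀ P : ℕ → ℕ → ℕ → Prop, (P = DivCond ∨ P = Steiner) →
      -- upper bounds
      (∀ ε : ℝ, 0 < ε → ∃ n₀ : ℕ, ∀ n : ℕ, n₀ ≤ n →
        ((onPoints P n 1).card : ℝ) ≤ (1 / 2 + ε) * (n / Real.log n)) ∧
      (∀ ε : ℝ, 0 < ε → ∃ X₀ : ℕ, ∀ X : ℕ, X₀ ≤ X →
        ((triples P X 1).card : ℝ) ≤ (1 / 4 + ε) * ((X : ℝ) ^ 2 / Real.log X)) ∧
      -- nearly all solutions are `(p + r, r + 1, r)` with a prime `p`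
      (∃ K : ℝ, ∀ n : ℕ, 2 ≤ n →
        (((onPoints P n 1).filter (fun z => ¬ (z.1 = z.2 + 1 ∧ (n - z.2).Prime))).card : ℝ) ≤
          K * (n / (Real.log n) ^ 2)) ∧
      -- `q - r ≥ b`
      (∀ b : ℕ, 1 ≤ b → ∃ K : ℝ, ∀ n : ℕ, 2 ≤ n →
        ((onPoints P n b).card : ℝ) ≤ K * (n / (Real.log n) ^ b)) ∧
      (∀ ε : ℝ, 0 < ε → ∀ b : ℕ, 1 ≤ b → ∃ K : ℝ, ∀ X : ℕ, 2 ≤ X → ∀ r : ℕ, (X : ℝ) ^ ε ≤ r →
        ((ofStrength P r X b).card : ℝ) ≤ K * (X / (Real.log X) ^ b)) ∧
      (∀ ε : ℝ, 0 < ε → ∀ b : ℕ, 1 ≤ b → ∃ K : ℝ, ∀ X : ℕ, 2 ≤ X → ∀ q : ℕ, (X : ℝ) ^ ε ≤ q →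
        ((ofBlockSize P q X b).card : ℝ) ≤ K * (X / (Real.log X) ^ b)) := by
  have hD : ∀ n b, onPoints DivCond n b = DD n b := fun _ _ => rfl
  have hT : ∀ X b, triples DivCond X b = TT X b := fun _ _ => rfl
  refine ⟨?_, ?_, fun P hP => ?_⟩
  · simp only [hD]; exact asympN
  · simp only [hT]; exact asymp
  have hPD : ∀ n q r : ℕ, r < n → P n q r → DivCond n q r := by
    rcases hP with rfl | rfl
    · exact fun _ _ _ _ h => h
    · rintro n q r h ⟨B, hB⟩
      exact Pool.Agent.R60.Steiner.divCond_of_isSteiner h.le hB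
  have s1 : ∀ n b : ℕ, onPoints P n b ⊆ DD n b := by
    intro n b z hz
    unfold onPoints at hz
    unfold DD
    rw [mem_filter] at hz ⊢
    exact ⟨hz.1, hz.2.1, hz.2.2.1, hPD _ _ _ (by omega) hz.2.2.2⟩
  have s2 : ∀ X b : ℕ, triples P X b ⊆ TT X b := by
    intro n b z hz
    unfold triples at hz
    unfold TT
    rw [mem_filter] at hz ⊢
    exact ⟨hz.1, hz.2.1, hz.2.2.1, hPD _ _ _ (by omega) hz.2.2.2⟩
  have s3 : ∀ r X b : ℕ, ofStrength P r X b ⊆ FF X r b := by
    intro n r b z hz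
    unfold ofStrength at hz
    unfold FF
    rw [mem_filter] at hz ⊢
    exact ⟨hz.1, hz.2.1, hz.2.2.1, hPD _ _ _ (by omega) hz.2.2.2⟩
  have s4 : ∀ q X b : ℕ, ofBlockSize P q X b ⊆ EE X q b := by
    intro n q b z hz
    unfold ofBlockSize at hz
    unfold EE
    rw [mem_filter] at hz ⊢
    exact ⟨hz.1, hz.2.1, hz.2.2.1, hPD _ _ _ (by omega) hz.2.2.2⟩
  refine ⟨fun ε hε => ?_, fun ε hε => ?_, ?_, fun b hb => ?_, fun ε hε b hb => ?_, fun ε hε b hb => ?_⟩
  · have h1 := asympN.eventually_lt_const (show (1 / 2 : ℝ) < 1 / 2 + ε by linarith)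
    obtain ⟨N, hN⟩ := eventually_atTop.1 h1
    refine ⟨N + 2, fun n hn => ?_⟩
    have h2 := hN n (by omega)
    have hn2 : (2 : ℝ) ≤ n := by exact_mod_cast (by omega : 2 ≤ n)
    have hl : 0 < Real.log n := Real.log_pos (by linarith)
    have h3 : ((onPoints P n 1).card : ℝ) ≤ (DD n 1).card := by exact_mod_cast card_le_card (s1 n 1)
    rw [← mul_div_assoc, le_div_iff₀ hl]
    rw [div_lt_iff₀ (by linarith)] at h2
    calc ((onPoints P n 1).card : ℝ) * Real.log n ≤ (DD n 1).card * Real.log n := by gcongr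
      _ ≤ _ := h2.le
  · have h1 := asymp.eventually_lt_const (show (1 / 4 : ℝ) < 1 / 4 + ε by linarith)
    obtain ⟨N, hN⟩ := eventually_atTop.1 h1
    refine ⟨N + 2, fun n hn => ?_⟩
    have h2 := hN n (by omega)
    have hn2 : (2 : ℝ) ≤ n := by exact_mod_cast (by omega : 2 ≤ n)
    have hl : 0 < Real.log n := Real.log_pos (by linarith)
    have h3 : ((triples P n 1).card : ℝ) ≤ (TT n 1).card := by exact_mod_cast card_le_card (s2 n 1)
    rw [← mul_div_assoc, le_div_iff₀ hl]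
    rw [div_lt_iff₀ (by positivity)] at h2
    calc ((triples P n 1).card : ℝ) * Real.log n ≤ (TT n 1).card * Real.log n := by gcongr
      _ ≤ _ := h2.le
  · obtain ⟨K, -, h⟩ := rareN
    refine ⟨K, fun n hn => le_trans ?_ (h n hn)⟩
    exact_mod_cast card_le_card (filter_subset_filter _ (s1 n 1))
  · obtain ⟨K, -, h⟩ := fixedN b hb
    refine ⟨K, fun n hn => le_trans ?_ (h n hn)⟩
    exact_mod_cast card_le_card (s1 n b)
  · obtain ⟨K, -, h⟩ := fixedR ε hε b hb
    refine ⟨K, fun X hX r hr => le_trans ?_ (h X hX r hr)⟩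
    exact_mod_cast card_le_card (s3 r X b)
  · obtain ⟨K, -, h⟩ := fixedQ ε hε b hb
    refine ⟨K, fun X hX q hq => le_trans ?_ (h X hX q hq)⟩
    exact_mod_cast card_le_card (s4 q X b)

end Pool.Agent.Results.MP_409a13_co.AdmissibleParameters
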