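import Mathlib
import Pool.Agent.Helper31K9.RNG.PlaneD
import Pool.Agent.Helper31K9.RNG.Lower
import Pool.Agent.Helper31K9.RNG.Big4
import Pool.Agent.Helper31K9.RNG.Dvq
import Pool.Agent.Helper31K9.RNG.Cnd
import Pool.Agent.Helper31K9.RNG.Grf
import Pool.Agent.Helper31K9.RNG.Any
import Pool.Agent.Helper31K9.RNG.Bur
import Pool.Agent.Helper31K9.RNG.Fre
import Pool.Agent.Helper31K9.RNG.Syf

set_option autoImplicit false

namespace Pool.Agent.Results.MP_409a13_co.RegularNilpotentGroups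

/-- `B` is a Steiner system `S(n,q,r)`: its members (the blocks) are `q`-element subsets of `Fin n`,
and every `r`-element subset of `Fin n` is contained in exactly one block. -/
def IsSteiner (n q r : ℕ) (B : Finset (Finset (Fin n))) : Prop :=
  (∀ b ∈ B, b.card = q) ∧ ∀ T : Finset (Fin n), T.card = r → ∃! b, b ∈ B ∧ T ⊆ b

/-- There is a Steiner system `S(k ^ 2 + t, k + t, t + 2)` with a nilpotent group `G` of
automorphisms which fixes each point of a set `F` of `t` points and acts regularly on the `k ^ 2`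
points outside `F`. (`t = 0`: affine planes of order `k` with a point-regular nilpotent group.) -/
def Regular (k t : ℕ) : Prop :=
  ∃ (B : Finset (Finset (Fin (k ^ 2 + t)))) (G : Subgroup (Equiv.Perm (Fin (k ^ 2 + t))))
    (F : Finset (Fin (k ^ 2 + t))), IsSteiner (k ^ 2 + t) (k + t) (t + 2) B ∧
    Group.IsNilpotent G ∧ (∀ g ∈ G, ∀ b ∈ B, b.image g ∈ B) ∧ F.card = t ∧
    (∀ g ∈ G, ∀ x ∈ F, g x = x) ∧ ∀ x y, x ∉ F → y ∉ F → ∃! g, g ∈ G ∧ g x = y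

/-- As `Regular k t`, but the group `G` need not be nilpotent. -/
def RegularAny (k t : ℕ) : Prop :=
  ∃ (B : Finset (Finset (Fin (k ^ 2 + t)))) (G : Subgroup (Equiv.Perm (Fin (k ^ 2 + t))))
    (F : Finset (Fin (k ^ 2 + t))), IsSteiner (k ^ 2 + t) (k + t) (t + 2) B ∧
    (∀ g ∈ G, ∀ b ∈ B, b.image g ∈ B) ∧ F.card = t ∧
    (∀ g ∈ G, ∀ x ∈ F, g x = x) ∧ ∀ x y, x ∉ F → y ∉ F → ∃! g, g ∈ G ∧ g x = y

theorem not_squarefree {m s w : ℕ} (hs : 0 < s) (hsm : s < m) (h : m * s = w ^ 2) :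
    ¬ Squarefree m := by
  intro hm
  have h1 : m ∣ w := (hm.dvd_pow_iff_dvd (by norm_num)).1 (h ▸ Dvd.intro s rfl)
  obtain ⟨c, rfl⟩ := h1
  have h2 : s = m * c ^ 2 := by
    have h3 : m * s = m * (m * c ^ 2) := by rw [h]; ring
    exact Nat.eq_of_mul_eq_mul_left (by omega) h3
  rcases Nat.eq_zero_or_pos c with h4 | h4
  · rw [h4] at h2
    simp at h2
    omega
  · have h5 : m * 1 ≤ m * c ^ 2 := Nat.mul_le_mul_left _ (Nat.one_le_pow _ _ h4)
    omega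

/-- Let `k ≥ 2` be such that `Regular k t` for some `t`.

(1) If `k = m n`, where `n` is squarefree and prime to `m`, then
`(p - 2 m ^ 2) n ≤ m ^ 2 p (p - 2)` for every odd prime divisor `p` of `n`. (For `m = 1`: a
squarefree `k` is prime.)

(2) If `k = m p`, where `p` is a prime not dividing `m ≥ 2`, then `p ≤ 4 m ^ 2` or
`m = (u v) ^ 2`, where `v ≥ 2`, `p ≤ 4 ^ (v ^ 2)` and all prime divisors of `v` have odd order at
most `v ^ 4` modulo `p`.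

(3) All but `O(X exp (- √(log X) / 16))` of these integers `k ≤ X` are primes.

(4) All prime powers `k` have the property, with `t = 0`.

(5) Arbitrary groups: let `k ≥ 2` be such that `RegularAny k t` for some `t`, `k = m p`, `p` a
prime not dividing `m`, `m ≥ 2` and `m` prime to `p ^ 2 - 1`. Then `p ≤ 4 m ^ 4`, or `m` is not
squarefree and `m s = (u v) ^ 2` for some `0 < s < m` and `v ≥ 2` with `p ≤ 4 ^ (v ^ 2)`, where all
prime divisors of `v` have odd order at most `v ^ 4` modulo `p`. -/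
theorem result :
    (∀ k t m n p : ℕ, 2 ≤ k → Regular k t → k = m * n → m.Coprime n → Squarefree n → p.Prime →
      p ≠ 2 → p ∣ n → ((p : ℤ) - 2 * m ^ 2) * n ≤ m ^ 2 * p * (p - 2)) ∧
    (∀ k t m p : ℕ, 2 ≤ k → Regular k t → k = m * p → p.Prime → ¬ p ∣ m → 2 ≤ m →
      p ≤ 4 * m ^ 2 ∨ ∃ u v : ℕ, m = (u * v) ^ 2 ∧ 2 ≤ v ∧ p ≤ 4 ^ (v ^ 2) ∧
        ∀ q : ℕ, q.Prime → q ∣ v → Odd (orderOf (q : ZMod p)) ∧ orderOf (q : ZMod p) ≤ v ^ 4) ∧
    (∃ C : ℝ, 0 < C ∧ ∀ X : ℕ, 1 ≤ X →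
      ({k : ℕ | k ≤ X ∧ 2 ≤ k ∧ ¬ k.Prime ∧ ∃ t, Regular k t}.ncard : ℝ) ≤
        C * X * Real.exp (-(Real.sqrt (Real.log X) / 16))) ∧
    (∀ k : ℕ, IsPrimePow k → Regular k 0) ∧
    ∀ k t m p : ℕ, 2 ≤ k → RegularAny k t → k = m * p → p.Prime → ¬ p ∣ m → 2 ≤ m →
      m.Coprime (p ^ 2 - 1) →
      p ≤ 4 * m ^ 4 ∨ (¬ Squarefree m ∧ ∃ s u v : ℕ, 0 < s ∧ s < m ∧ m * s = (u * v) ^ 2 ∧ 2 ≤ v ∧
        p ≤ 4 ^ (v ^ 2) ∧
        ∀ q : ℕ, q.Prime → q ∣ v → Odd (orderOf (q : ZMod p)) ∧ orderOf (q : ZMod p) ≤ v ^ 4) := by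
  have h1 : ∀ k t m n p : ℕ, 2 ≤ k → Regular k t → k = m * n → m.Coprime n → Squarefree n →
      p.Prime → p ≠ 2 → p ∣ n → ((p : ℤ) - 2 * m ^ 2) * n ≤ m ^ 2 * p * (p - 2) :=
    fun k t m n p hk h hkm hmn hsq hp hp2 hpn =>
      Pool.Agent.Helper31K9.RNG.hasReg_ineq hk h hkm hmn hsq hp hp2 hpn
  have h2 : ∀ k t m p : ℕ, 2 ≤ k → Regular k t → k = m * p → p.Prime → ¬ p ∣ m → 2 ≤ m →
      p ≤ 4 * m ^ 2 ∨ ∃ u v : ℕ, m = (u * v) ^ 2 ∧ 2 ≤ v ∧ p ≤ 4 ^ (v ^ 2) ∧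
        ∀ q : ℕ, q.Prime → q ∣ v → Odd (orderOf (q : ZMod p)) ∧ orderOf (q : ZMod p) ≤ v ^ 4 :=
    fun k t m p hk h hkm hp hpm hm =>
      Pool.Agent.Helper31K9.RNG.hasReg_four Pool.Agent.Helper31K9.RNG.dvq hk h hkm hp hpm hm
  refine ⟨h1, h2, ?_, fun k hk => Pool.Agent.Helper31K9.RNG.hasReg_primePow hk, ?_⟩
  swap
  · intro k t m p hk h hkm hp hpm hm hcop
    refine (Pool.Agent.Helper31K9.RNG.hasAny_big
      (Pool.Agent.Helper31K9.RNG.grf Pool.Agent.Helper31K9.RNG.dvq)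
      Pool.Agent.Helper31K9.RNG.syf Pool.Agent.Helper31K9.RNG.bur Pool.Agent.Helper31K9.RNG.fre
      hk h hkm hp hpm hm hcop).imp id ?_
    rintro ⟨s, hs, hsm, u, v, h3, h4, h5, h6⟩
    exact ⟨not_squarefree hs hsm h3, s, u, v, hs, hsm, h3, h4, h5, h6⟩
  obtain ⟨C, hC, hC'⟩ := Pool.Agent.Helper31K9.RNG.cnd
  refine ⟨C, hC, fun X hX => ?_⟩
  refine le_trans (le_of_eq ?_) (hC' (fun k => 2 ≤ k ∧ ∃ t, Regular k t)
    ⟨fun k ⟨hk, t, ht⟩ m n p h a b c d e => h1 k t m n p hk ht h a b c d e,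
      fun k ⟨hk, t, ht⟩ m p h a b c => (h2 k t m p hk ht h a b c).imp id ?_⟩ X hX)
  swap
  · rintro ⟨u, v, huv, hv, -, hall⟩
    have hvm : v ^ 2 ≤ m := by
      have hu : 0 < u := by
        rcases Nat.eq_zero_or_pos u with h0 | h0
        · rw [h0] at huv
          simp at huv
          omega
        · exact h0
      rw [huv]
      exact Nat.pow_le_pow_left (Nat.le_mul_of_pos_left v hu) 2
    have hq := Nat.minFac_prime (show v ≠ 1 by omega)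
    refine ⟨v.minFac, hq, ?_, (hall _ hq (Nat.minFac_dvd v)).2.trans ?_⟩
    · rw [huv]
      exact ((Nat.minFac_dvd v).trans (Dvd.intro_left u rfl)).trans (dvd_pow_self _ two_ne_zero)
    · calc v ^ 4 = (v ^ 2) ^ 2 := by ring
        _ ≤ m ^ 2 := Nat.pow_le_pow_left hvm 2
  congr 2
  ext k
  simp only [Set.mem_ofPred_eq]
  tauto

end Pool.Agent.Results.MP_409a13_co.RegularNilpotentGroups
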