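import Mathlib
import Pool.Agent.Helper32K9.St.Main

/-!
# Steiner systems of bounded strength: the number of points is not polynomial in the block size,
# for most block sizes

For every `C` and `ε > 0` there is a strength `r₀` such that for all large `X` and all but at most
`ε X` of the integers `k ≤ X` every triple `(n, q, r)` with `q - r = k`, `r ≥ r₀`, `n > q` which
satisfies the divisibility condition (D), in particular every one for which there is a Steiner
system `S(n, q, r)`, has `n > r + (q - r) ^ C`.

For a fixed strength `r ≥ r₀` this says that `n > q ^ C` for most block sizes `q`. The theorem of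
helper59 (`SuperpolynomialOrder`) covers strengths larger than a power of the block size.

Proof. Let `m = q - r`, `ν = n - r`. (D) implies: if a prime `p > i` divides `m + i`, `1 ≤ i ≤ r`,
then `p` divides `ν + e` for some `1 ≤ e ≤ i`. By a second moment argument for most `m ≤ X` all the
windows considered contain many `i` for which `m + i` has a prime factor `p_i > X ^ (2 / 5)`.
There is a nonzero polynomial `F (x, y) = A (x) + B (x) y + E (x) y ^ 2` which vanishes at the points
`(-i, -e_i)` for `K` such `i` and is of degree so small that `|F (m, ν)| < ∏ p_i`; hence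
`F (m, ν) = 0`, and the same holds at all further points `(-i, -e_i)`. If the discriminant is not a
square, then it takes square values at two integers `-i, -i'` of bounded distance, which is
impossible for large `i` by Runge's method, applied to the product of the two values. So `ν` is a
rational function of `m`, hence a polynomial `T (m)`, with `T (-i) = -e_i`; it is linear as
`e_i ≤ i`, of slope one, and this contradicts (D) at `i = 1`.
-/

set_option autoImplicit false

namespace Pool.Agent.Results.MP_409a13_co.SmallStrength

/-- `B` is a Steiner system `S(n, q, r)` on the points `Fin n`: its members (blocks) have `q`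
elements, and each set of `r` points lies in exactly one block. -/
def IsSteiner (n q r : ℕ) (B : Finset (Finset (Fin n))) : Prop :=
  (∀ b ∈ B, b.card = q) ∧ ∀ s : Finset (Fin n), s.card = r → ∃! b, b ∈ B ∧ s ⊆ b

/-- The divisibility condition (D): for each `i < r` the number `C(n-i, r-i)` is a multiple of
`C(q-i, r-i)`. -/
def DivCond (n q r : ℕ) : Prop := ∀ i < r, (q - i).choose (r - i) ∣ (n - i).choose (r - i)

/-- **Main result.** For all `C` and `ε > 0` there are `r₀` and `X₀` such that for every `X ≥ X₀`
there is a set `E` of at most `ε X` integers with the following property: if `r₀ ≤ r < q < n`,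
`q - r ≤ X`, `q - r ∉ E`, and (D) holds for `(n, q, r)` or there is a Steiner system `S(n, q, r)`,
then `n > r + (q - r) ^ C`. -/
theorem result (C : ℕ) (ε : ℝ) (hε : 0 < ε) : ∃ r₀ X₀ : ℕ, ∀ X : ℕ, X₀ ≤ X →
    ∃ E : Finset ℕ, (E.card : ℝ) ≤ ε * X ∧ ∀ n q r : ℕ, r₀ ≤ r → r < q → q < n →
      q - r ≤ X → q - r ∉ E → (DivCond n q r ∨ ∃ B, IsSteiner n q r B) →
      r + (q - r) ^ C < n := by
  classical
  obtain ⟨r₀, X₀, h⟩ := Pool.Agent.Helper32K9.St.main C ε hε
  refine ⟨r₀, X₀, fun X hX => ⟨_, h X hX, ?_⟩⟩
  intro n q r hr hrq hqn hqX hE hD
  by_contra hc
  apply hE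
  rw [Finset.mem_filter, Finset.mem_Icc]
  refine ⟨⟨by omega, hqX⟩, n, r, hr, by omega, by omega, ?_⟩
  rw [show q - r + r = q by omega]
  rcases hD with hD | ⟨B, hB⟩
  · exact hD
  · exact Pool.Agent.R60.Steiner.divCond_of_isSteiner (by omega) (B := B) hB

end Pool.Agent.Results.MP_409a13_co.SmallStrength
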