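import Pool.Agent.Helper59K9.St.Main

/-!
# Steiner systems `S(n, q, r)`: the number of points is superpolynomial in `min(r, q - r)`

The classical lower bounds for the number of points of a Steiner system `S(n, q, r)`, `n > q`, are
at most quadratic in the block size: `n ≥ (r + 1) (q - r + 1)` (Tits) and
`n ≥ (q - r + 1) (q - r + 2) + r - 1` (Cameron).

* For every exponent `C` there is a `K` such that every Steiner system `S(n, q, r)` with `n > q`
  and `min(r, q - r) ≥ K` has `n > min(r, q - r) ^ C`.
* For every `ε > 0`, every exponent `C` and all large `X` the following is true for all pairs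
  `(q, r)` with `1 ≤ r ≤ q ≤ X` with at most `X ^ (1 + ε)` exceptions: there is no Steiner system
  `S(n, q, r)` with `q < n ≤ X ^ C`.

Proof. Let `a = q - r`, `m = n - r`. The divisibility condition (D) and Kummer's theorem (starting
files) give `a % p ≤ m % p` for all primes `p ≤ r`. So for the primes `p` in an interval
`(N, 2 N]`, `2 N ≤ r`, the points `(a / p, m / p)` of the torus lie in the triangle
`0 ≤ x ≤ y < 1`. But by the bounds for the exponential sums `∑_{N < p ≤ 2 N} e(ξ / p)` (method of
Vinogradov, Vaughan's identity, differencing; starting files) with `ξ = h a + k m` they are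
uniformly distributed if `N ^ 2 ≤ a`, `3 a ≤ m` (which follows from Tits' inequality) and `m` is at
most a power of `N`. We use only small frequencies: on the triangle
`S = sin 2πx + sin 2π(y - x) - sin 2πy = 4 sin πx sin π(y - x) sin πy ≥ 0`, and `3/2 + 3 S - S^2` has
mean value `0` on the torus and is at least `3 / 2` on the triangle.
-/

set_option autoImplicit false
open Finset

namespace Pool.Agent.Results.MP_409a13_co.SuperpolynomialOrder

/-- `B` is a Steiner system `S(n, q, r)` on the points `Fin n`: its members (blocks) have `q`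
elements, and each set of `r` points lies in exactly one block. -/
def IsSteiner (n q r : ℕ) (B : Finset (Finset (Fin n))) : Prop :=
  (∀ b ∈ B, b.card = q) ∧ ∀ s : Finset (Fin n), s.card = r → ∃! b, b ∈ B ∧ s ⊆ b

/-- The divisibility condition (D): for each `i < r` the number `C(n-i, r-i)` is a multiple of
`C(q-i, r-i)`. -/
def DivCond (n q r : ℕ) : Prop := ∀ i < r, (q - i).choose (r - i) ∣ (n - i).choose (r - i)

open Classical in
theorem result :
    (∀ C : ℕ, ∃ K : ℕ, ∀ n q r : ℕ, r ≤ q → q < n → K ≤ min r (q - r) →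
      (∃ B, IsSteiner n q r B) → min r (q - r) ^ C < n) ∧
    (∀ C : ℕ, ∃ K : ℕ, ∀ n q r : ℕ, r ≤ q → q < n → K ≤ min r (q - r) →
      DivCond n q r → (r + 1) * (q - r + 1) ≤ n → min r (q - r) ^ C < n) ∧
    (∀ (ε : ℝ) (C : ℕ), 0 < ε → ∃ X₀ : ℕ, ∀ X : ℕ, X₀ ≤ X →
      ((((Icc 1 X) ×ˢ (Icc 1 X)).filter (fun z : ℕ × ℕ => z.2 ≤ z.1 ∧
        ∃ n, z.1 < n ∧ n ≤ X ^ C ∧ ∃ B, IsSteiner n z.1 z.2 B)).card : ℝ) ≤ (X : ℝ) ^ (1 + ε)) :=
  ⟨fun C => Pool.Agent.Helper59K9.St.steinerMin C, fun C => Pool.Agent.Helper59K9.St.arith C,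
    fun ε C hε => Pool.Agent.Helper59K9.St.pairs ε hε C⟩

end Pool.Agent.Results.MP_409a13_co.SuperpolynomialOrder
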